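import Pool.Agent.Helper89.A8.Stmts
import Pool.Agent.Helper89.A8.MTools

/-! Block A8-M11: unique completion of a pairing with two small modules. -/

set_option autoImplicit false
set_option linter.style.haveILetI false

namespace Pool.Agent.A8

namespace MEleven

/-- the dual type -/
def dT : Ty → Ty
  | .v => .d
  | .d => .v
  | .l => .l

theorem iso_of_form {A B : Type} [AddCommGroup A] [Module RG A] [AddCommGroup B] [Module RG B]
    [Finite B] [Nontrivial A] (hB : IsSimpleModule RG B) (β : A →+ B →+ ZMod 2)
    (hinv : ∀ (g : Gam) (a : A) (b : B), β (act g a) (act g b) = β a b)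
    (hnd : ∀ a, (∀ b, β a b = 0) → a = 0) : Nonempty (A ≃ₗ[RG] Du B) := by
  let L0 : A →+ Du B := β
  have hL0 : ∀ a b, (L0 a) b = β a b := fun _ _ => rfl
  let L : A →ₗ[RG] Du B := mkLin L0 (by
    intro g a
    ext b
    rw [act_Du, hL0, hL0]
    have h := hinv g a (act g⁻¹ b)
    rw [act_act_inv] at h
    exact h)
  have hinj : Function.Injective L := by
    rw [injective_iff_map_eq_zero]
    intro a ha
    apply hnd
    intro b
    have := DFunLike.congr_fun ha b
    exact this
  have hsim : IsSimpleModule RG (Du B) := Du.simple hB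
  have hsurj : Function.Surjective L := by
    rw [← LinearMap.range_eq_top]
    rcases eq_bot_or_eq_top (LinearMap.range L) with h | h
    · exfalso
      obtain ⟨a, ha⟩ := exists_ne (0 : A)
      apply ha
      apply hinj
      have : L a ∈ LinearMap.range L := ⟨a, rfl⟩
      rw [h, Submodule.mem_bot] at this
      rw [this, map_zero]
    · exact h
  exact ⟨LinearEquiv.ofBijective L ⟨hinj, hsurj⟩⟩

theorem ev_nd : ∀ x : V4, (∀ v : V4, ev x v = 0) → x = 0 := by
  decide +kernel

theorem ev_comm (x v : V4) : ev x v = ev v x := dotProduct_comm _ _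

theorem pol_nd (l : V6) (h : ∀ m : V6, pol l m = 0) : l = 0 := by
  funext i
  have h0 := h (Pi.single 0 1)
  have h1 := h (Pi.single 1 1)
  have h2 := h (Pi.single 2 1)
  have h3 := h (Pi.single 3 1)
  have h4 := h (Pi.single 4 1)
  have h5 := h (Pi.single 5 1)
  simp [pol] at h0 h1 h2 h3 h4 h5
  fin_cases i
  · simpa using h5
  · simpa using h4
  · simpa using h3
  · simpa using h2
  · simpa using h1
  · simpa using h0

theorem pol_actL (A B : M4) (hAB : A * B = 1) (l m : V6) :
    pol (actL A l) (actL A m) = pol l m := by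
  have hBA : B * A = 1 := mul_eq_one_comm.1 hAB
  -- a vector `v` with `A v ≠ 0`
  set v : V4 := Pi.single 0 1 with hv
  have h1 := clifford (actL A l) (actL A m) (A.mulVec v)
  rw [lv_act A B hAB, lv_act A B hAB, ld_act A B hAB, ld_act A B hAB, ← Matrix.mulVec_add,
    clifford l m v, Matrix.mulVec_smul] at h1
  have h2 : (A.mulVec v : V4) ≠ 0 := by
    intro h
    have h3 : B.mulVec (A.mulVec v) = v := by
      rw [Matrix.mulVec_mulVec, hBA, Matrix.one_mulVec]
    rw [h, Matrix.mulVec_zero] at h3
    have := congrFun h3 0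
    simp [hv] at this
  have h3 : (pol l m - pol (actL A l) (actL A m)) • (A.mulVec v : V4) = 0 := by
    rw [sub_smul, h1, sub_self]
  rcases smul_eq_zero.1 h3 with h | h
  · exact (sub_eq_zero.1 h).symm
  · exact absurd h h2

theorem exists_iso (h2 : S_SIM) (t : Ty) : Nonempty (Md (dT t) ≃ₗ[RG] Du (Md t)) := by
  cases t with
  | v =>
    have : Nontrivial MD := ⟨⟨(0 : Fin 4 → ZMod 2), (fun _ => 1 : Fin 4 → ZMod 2), by decide⟩⟩
    exact iso_of_form (A := MD) (B := MV) (h2 .v)
      (AddMonoidHom.mk' (fun x : MD => AddMonoidHom.mk' (fun v : MV => evM x v)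
        (fun a b => dotProduct_add (x : Fin 4 → ZMod 2) a b)) (fun a b => by
          ext v
          exact add_dotProduct (a : Fin 4 → ZMod 2) b v))
      (fun g a b => evM_act g a b) (fun x hx => ev_nd x hx)
  | d =>
    have : Nontrivial MV := ⟨⟨(0 : Fin 4 → ZMod 2), (fun _ => 1 : Fin 4 → ZMod 2), by decide⟩⟩
    exact iso_of_form (A := MV) (B := MD) (h2 .d)
      (AddMonoidHom.mk' (fun v : MV => AddMonoidHom.mk' (fun x : MD => evM x v)
        (fun a b => add_dotProduct (a : Fin 4 → ZMod 2) b v)) (fun a b => by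
          ext x
          exact dotProduct_add (x : Fin 4 → ZMod 2) a b))
      (fun g a b => evM_act g b a)
      (fun x hx => ev_nd x (fun v => (ev_comm x v).trans (hx v)))
  | l =>
    have : Nontrivial ML := ⟨⟨(0 : Fin 6 → ZMod 2), (fun _ => 1 : Fin 6 → ZMod 2), by decide⟩⟩
    have hadd1 : ∀ a b m : V6, pol (a + b) m = pol a m + pol b m := by
      intro a b m
      simp only [pol, Pi.add_apply]
      ring
    have hadd2 : ∀ m a b : V6, pol m (a + b) = pol m a + pol m b := by
      intro m a b
      simp only [pol, Pi.add_apply]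
      ring
    exact iso_of_form (A := ML) (B := ML) (h2 .l)
      (AddMonoidHom.mk' (fun x : ML => AddMonoidHom.mk' (fun v : ML => pol x v)
        (fun a b => hadd2 x a b)) (fun a b => by
          ext v
          exact hadd1 a b v))
      (fun g a b => by
        show pol (act g a : ML) (act g b : ML) = pol a b
        rw [act_ML, act_ML]
        exact pol_actL g.1 (g⁻¹).1 (gam_mul_inv g) a b) (fun x hx => pol_nd x hx)

theorem std_flip {a b c : Ty} {m : Md a → Md b → Md c} (h : Std3 a b c m) :
    Std3 b a c (fun x y => m y x) := by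
  cases h with
  | vv =>
    have : (fun (x : Md .v) (y : Md .v) => mvv y x) = mvv := by
      funext x y
      exact wdg_comm y x
    rw [this]; exact Std3.vv
  | dd =>
    have : (fun (x : Md .d) (y : Md .d) => mdd y x) = mdd := by
      funext x y
      exact congrArg hs (wdg_comm y x)
    rw [this]; exact Std3.dd
  | vl => exact Std3.lv
  | lv => exact Std3.vl
  | dl => exact Std3.ld
  | ld => exact Std3.dl

end MEleven

open MEleven

theorem bUC (h1 : S_GG) (h2 : S_SIM) (h3 : S_END) (_h4 : S_PERF) : S_UC := by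
  intro b c X _ _ _ _ p hp hL
  -- the dual pairing
  obtain ⟨ec⟩ := exists_iso h2 c
  have hq := pcomp_adm (LinearMap.id : Md b →ₗ[RG] Md b) ec.toLinearMap
    (LinearMap.id : Du X →ₗ[RG] Du X) (dp_adm hp)
  -- the values of the pairing separate the points
  have hsep : ∀ x : X, (∀ (y : Md b) (w : Md (dT c)), (dp p y (ec w)) x = 0) → x = 0 := by
    intro x hx
    apply hL
    intro y
    apply Du.sep
    intro z
    have := hx y (ec.symm z)
    rw [LinearEquiv.apply_symm_apply, dp_apply] at this
    exact this
  obtain ⟨a, ⟨α⟩⟩ : ∃ a : Ty, Nonempty (X ≃ₗ[RG] Md a) := by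
    rcases h1 b (dT c) (Du X) _ hq with h | ⟨a', m, f, hm, hf⟩
    · exfalso
      obtain ⟨x, hx⟩ := exists_ne (0 : X)
      apply hx
      apply hsep
      intro y w
      have := h y w
      rw [pcomp_apply] at this
      have h5 : dp p y (ec w) = 0 := this
      rw [h5]
      rfl
    · have hsurj : LinearMap.range f = ⊤ := by
        apply Du.eq_top
        intro x hx
        apply hsep
        intro y w
        have h5 : dp p y (ec w) = f (m y w) := hf y w
        rw [h5]
        exact hx _ ⟨_, rfl⟩
      -- `X ≃ Du (Md a') ≃ Md a`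
      obtain ⟨ea⟩ := exists_iso h2 a'
      refine ⟨dT a', ?_⟩
      suffices h : Nonempty (X ≃ₗ[RG] Du (Md a')) by
        obtain ⟨e⟩ := h
        exact ⟨e.trans ea.symm⟩
      refine iso_of_form (h2 a')
        (AddMonoidHom.mk' (fun x : X => AddMonoidHom.mk' (fun w : Md a' => (f w) x)
          (fun u v => by rw [map_add]; rfl)) (fun x y => by
            ext w
            exact map_add (f w) x y)) ?_ ?_
      · intro g x w
        show (f (act g w)) (act g x) = (f w) x
        rw [map_act, act_Du, act_inv_act]
      · intro x hx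
        apply Du.sep
        intro z
        have hz : z ∈ LinearMap.range f := by rw [hsurj]; exact Submodule.mem_top
        obtain ⟨w, rfl⟩ := hz
        exact hx w
  -- now use GG for the pairing of the small modules
  have hp' := pcomp_adm α.symm.toLinearMap (LinearMap.id : Md b →ₗ[RG] Md b)
    (LinearMap.id : Md c →ₗ[RG] Md c) hp
  have hne : ∃ (x : Md a) (y : Md b), pcomp α.symm.toLinearMap (LinearMap.id : Md b →ₗ[RG] Md b)
      (LinearMap.id : Md c →ₗ[RG] Md c) p x y ≠ 0 := by
    by_contra hcon
    push Not at hcon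
    obtain ⟨x, hx⟩ := exists_ne (0 : X)
    apply hx
    apply hL
    intro y
    have h5 := hcon (α x) y
    rw [pcomp_apply] at h5
    have h6 : α.symm.toLinearMap (α x) = x := α.symm_apply_apply x
    rw [h6] at h5
    exact h5
  rcases h1 a b (Md c) _ hp' with h | ⟨c', m, f, hm, hf⟩
  · obtain ⟨x, y, hxy⟩ := hne
    exact absurd (h x y) hxy
  · rcases h3 c' c f with h | ⟨hcc, h⟩
    · obtain ⟨x, y, hxy⟩ := hne
      rw [hf, h] at hxy
      exact absurd rfl hxy
    · subst hcc
      refine ⟨a, m, α, hm, fun x y => ?_⟩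
      have h5 := hf (α x) y
      rw [h, pcomp_apply] at h5
      have h6 : α.symm.toLinearMap (α x) = x := α.symm_apply_apply x
      rw [h6] at h5
      exact h5

theorem bUC' (h : S_UC) : S_UC' := by
  intro a c Y _ _ _ _ p hp hR
  obtain ⟨b, m, β, hm, hβ⟩ := h a c Y p.flip (flip_adm hp) (perfL_flip.2 hR)
  exact ⟨b, fun x y => m y x, β, std_flip hm, fun x y => hβ y x⟩

end Pool.Agent.A8
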